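import Pool.Agent.H695R3.AN.Count

/-!
# Graphs defined by agreement patterns and their inertia

The vertices are the words of length `q` over an alphabet with `m` letters; whether two words are
adjacent depends only on the set of positions at which they agree, encoded as a natural number
`x < 2 ^ q`. If this dependence is `#{s ∈ P : s ⊆ x} - #{s ∈ N : s ⊆ x}` for two lists of sets of
positions `P` and `N`, such that the full set is in `P`, then the adjacency matrix is positive
definite on the functions whose marginals on the sets of `N` vanish.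
-/

set_option autoImplicit false

namespace Pool.Agent.Q125.IN

open Finset

/-! ### inertia -/

section inertia

variable {V : Type} [Fintype V]

open scoped Classical in
/-- The adjacency matrix of a graph is Hermitian. -/
theorem herm (G : SimpleGraph V) : (G.adjMatrix ℝ).IsHermitian := by
  rw [Matrix.IsHermitian, Matrix.conjTranspose_eq_transpose_of_trivial]
  exact G.isSymm_adjMatrix

open scoped Classical in
/-- The number of positive eigenvalues of the adjacency matrix, with multiplicity. -/
noncomputable def nPlus (G : SimpleGraph V) : ℕ :=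
  (univ.filter fun i => 0 < (herm G).eigenvalues i).card

open scoped Classical in
/-- The number of negative eigenvalues of the adjacency matrix, with multiplicity. -/
noncomputable def nMinus (G : SimpleGraph V) : ℕ :=
  (univ.filter fun i => (herm G).eigenvalues i < 0).card

open scoped Classical in
theorem bounds (G : SimpleGraph V) (U : Submodule ℝ (V → ℝ))
    (hU : ∀ f ∈ U, ∑ x, f x ^ 2 ≤ ∑ x, f x * (G.adjMatrix ℝ).mulVec f x) :
    Module.finrank ℝ U ≤ nPlus G ∧ nMinus G + Module.finrank ℝ U ≤ Fintype.card V := by
  have h1 := Pool.Agent.H695R3.AN.Count.le_count (herm G) 1 U (fun f hf => by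
    rw [one_mul]; exact hU f hf)
  have h2 : (univ.filter fun i => 1 ≤ (herm G).eigenvalues i).card ≤ nPlus G := by
    apply card_le_card
    intro i hi
    rw [mem_filter] at hi ⊢
    exact ⟨hi.1, lt_of_lt_of_le one_pos hi.2⟩
  have h3 : nMinus G + (univ.filter fun i => 1 ≤ (herm G).eigenvalues i).card ≤
      Fintype.card V := by
    rw [nMinus, ← card_union_of_disjoint]
    · exact card_le_univ _
    · rw [disjoint_filter]
      intro i _ h4 h5
      linarith
  exact ⟨h1.trans h2, by omega⟩

end inertia

/-! ### agreement patterns -/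

variable {q m : ℕ}

/-- The set of positions at which two words agree, as a binary number. -/
def agree (u v : Fin q → Fin m) : ℕ := Nat.ofBits fun i => decide (u i = v i)

theorem agree_comm (u v : Fin q → Fin m) : agree u v = agree v u := by
  unfold agree
  congr 1
  funext i
  exact decide_eq_decide.2 eq_comm

theorem agree_lt (u v : Fin q → Fin m) : agree u v < 2 ^ q := Nat.ofBits_lt_two_pow _

theorem testBit_agree (u v : Fin q → Fin m) (i : Fin q) :
    (agree u v).testBit i = decide (u i = v i) := by
  unfold agree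
  rw [Nat.testBit_ofBits_lt _ _ i.2]

/-- The number of the sets of the list contained in the set `x`. -/
def cnt (L : List ℕ) (x : ℕ) : ℕ := L.countP fun s => s &&& x == s

/-- The positions in the set `s`. -/
abbrev Pos (q s : ℕ) : Type := {i : Fin q // s.testBit i = true}

/-- The restriction of a word to the positions in `s`. -/
def res (s : ℕ) (u : Fin q → Fin m) : Pos q s → Fin m := fun i => u i.1

theorem land_iff {s : ℕ} (hs : s < 2 ^ q) (u v : Fin q → Fin m) :
    s &&& agree u v = s ↔ res s u = res s v := by
  constructor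
  · intro h
    funext i
    have h1 : (s &&& agree u v).testBit i.1 = s.testBit i.1 := by rw [h]
    rw [Nat.testBit_land, i.2, Bool.true_and, testBit_agree] at h1
    exact of_decide_eq_true h1
  · intro h
    apply Nat.eq_of_testBit_eq
    intro k
    rw [Nat.testBit_land]
    by_cases hk : k < q
    · rcases hb : s.testBit k with _ | _
      · rfl
      · have h1 : u ⟨k, hk⟩ = v ⟨k, hk⟩ := congrFun h ⟨⟨k, hk⟩, hb⟩
        have h2 := testBit_agree u v ⟨k, hk⟩
        rw [decide_eq_true h1] at h2
        rw [Bool.true_and]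
        exact h2
    · have h1 : s.testBit k = false :=
        Nat.testBit_lt_two_pow (lt_of_lt_of_le hs (Nat.pow_le_pow_right two_pos (not_lt.1 hk)))
      rw [h1, Bool.false_and]

/-- The data of a graph of this kind. -/
structure Pattern (q : ℕ) (P N : List ℕ) : Prop where
  /-- all sets are sets of positions -/
  ltP : ∀ s ∈ P, s < 2 ^ q
  ltN : ∀ s ∈ N, s < 2 ^ q
  /-- the full set is in `P` -/
  top : 2 ^ q - 1 ∈ P
  /-- the values are `0` or `1` -/
  bool : ∀ x < 2 ^ q, cnt P x = cnt N x ∨ cnt P x = cnt N x + 1
  /-- the value at the full set is `0` -/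
  diag : cnt P (2 ^ q - 1) = cnt N (2 ^ q - 1)

theorem agree_self (u : Fin q → Fin m) : agree u u = 2 ^ q - 1 := by
  apply Nat.eq_of_testBit_eq
  intro k
  by_cases hk : k < q
  · have h2 := testBit_agree u u ⟨k, hk⟩
    rw [decide_eq_true rfl] at h2
    rw [show (agree u u).testBit k = true from h2, Nat.testBit_two_pow_sub_one, decide_eq_true hk]
  · rw [Nat.testBit_two_pow_sub_one, decide_eq_false hk]
    exact Nat.testBit_lt_two_pow (lt_of_lt_of_le (agree_lt u u)
      (Nat.pow_le_pow_right two_pos (not_lt.1 hk)))

/-- The graph of an agreement pattern. -/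
def graph {P N : List ℕ} (h : Pattern q P N) (m : ℕ) : SimpleGraph (Fin q → Fin m) where
  Adj u v := cnt P (agree u v) = cnt N (agree u v) + 1
  symm := ⟨by
    intro u v huv
    rw [agree_comm v u]
    exact huv⟩
  loopless := ⟨by
    intro u hu
    rw [agree_self, h.diag] at hu
    omega⟩

/-- The sum of the squares of the marginals on the positions in `s`. -/
noncomputable def Q (s : ℕ) (f : (Fin q → Fin m) → ℝ) : ℝ :=
  ∑ w : Pos q s → Fin m, (∑ v, if res s v = w then f v else 0) ^ 2

theorem Q_nonneg (s : ℕ) (f : (Fin q → Fin m) → ℝ) : 0 ≤ Q s f :=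
  sum_nonneg fun _ _ => sq_nonneg _

theorem Q_eq (s : ℕ) (f : (Fin q → Fin m) → ℝ) :
    Q s f = ∑ u, ∑ v, (if res s u = res s v then (1 : ℝ) else 0) * (f u * f v) := by
  unfold Q
  have h1 : ∀ w : Pos q s → Fin m, (∑ v, if res s v = w then f v else 0) ^ 2 =
      ∑ u, ∑ v, (if res s u = w then f u else 0) * (if res s v = w then f v else 0) := by
    intro w
    rw [sq, sum_mul_sum]
  rw [sum_congr rfl fun w _ => h1 w, sum_comm]
  refine sum_congr rfl fun u _ => ?_
  rw [sum_comm]
  refine sum_congr rfl fun v _ => ?_
  rw [sum_eq_single (res s u)]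
  · rw [if_pos rfl]
    by_cases h : res s u = res s v
    · rw [if_pos h.symm, if_pos h, one_mul]
    · rw [if_neg (fun h' => h h'.symm), if_neg h, mul_zero, zero_mul]
  · intro w _ hw
    rw [if_neg (fun h' => hw h'.symm), zero_mul]
  · intro h
    exact absurd (mem_univ _) h

theorem cnt_eq {L : List ℕ} (hL : ∀ s ∈ L, s < 2 ^ q) (u v : Fin q → Fin m) :
    (cnt L (agree u v) : ℝ) = (L.map fun s => if res s u = res s v then (1 : ℝ) else 0).sum := by
  induction L with
  | nil => simp [cnt]
  | cons s L ih =>
    have h1 := ih fun t ht => hL t (List.mem_cons_of_mem s ht)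
    have h2 := land_iff (m := m) (hL s List.mem_cons_self) u v
    unfold cnt at h1 ⊢
    rw [List.countP_cons, List.map_cons, List.sum_cons, Nat.cast_add, h1, add_comm]
    congr 1
    by_cases h : res s u = res s v
    · rw [if_pos h, if_pos (by rw [beq_iff_eq]; exact h2.2 h), Nat.cast_one]
    · rw [if_neg h, if_neg (by rw [beq_iff_eq]; exact fun h' => h (h2.1 h')), Nat.cast_zero]

theorem sum_cnt {L : List ℕ} (hL : ∀ s ∈ L, s < 2 ^ q) (f : (Fin q → Fin m) → ℝ) :
    ∑ u, ∑ v, (cnt L (agree u v) : ℝ) * (f u * f v) = (L.map fun s => Q s f).sum := by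
  induction L with
  | nil => simp [cnt]
  | cons s L ih =>
    have h1 := ih fun t ht => hL t (List.mem_cons_of_mem s ht)
    rw [List.map_cons, List.sum_cons, ← h1, Q_eq, ← sum_add_distrib]
    refine sum_congr rfl fun u _ => ?_
    rw [← sum_add_distrib]
    refine sum_congr rfl fun v _ => ?_
    rw [cnt_eq hL, cnt_eq fun t ht => hL t (List.mem_cons_of_mem s ht), List.map_cons,
      List.sum_cons]
    ring

theorem Q_top (f : (Fin q → Fin m) → ℝ) : Q (2 ^ q - 1) f = ∑ u, f u ^ 2 := by
  rw [Q_eq]
  refine sum_congr rfl fun u _ => ?_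
  have h1 : ∀ v : Fin q → Fin m, res (2 ^ q - 1) u = res (2 ^ q - 1) v ↔ u = v := by
    intro v
    constructor
    · intro h
      funext i
      have hb : (2 ^ q - 1).testBit (i : ℕ) = true := by
        rw [Nat.testBit_two_pow_sub_one]; exact decide_eq_true i.2
      exact congrFun h ⟨i, hb⟩
    · rintro rfl; rfl
  rw [sum_eq_single u]
  · rw [if_pos rfl, one_mul, sq]
  · intro v _ hv
    rw [if_neg (fun h => hv ((h1 v).1 h).symm), zero_mul]
  · intro h
    exact absurd (mem_univ _) h

/-- The marginals on the sets of the list `N`. -/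
noncomputable def marg (q m : ℕ) (N : List ℕ) : ((Fin q → Fin m) → ℝ) →ₗ[ℝ]
    ((k : Fin N.length) → (Pos q (N.get k) → Fin m) → ℝ) where
  toFun f k w := ∑ v, if res (N.get k) v = w then f v else 0
  map_add' f g := by
    funext k w
    simp only [Pi.add_apply]
    rw [← sum_add_distrib]
    refine sum_congr rfl fun v _ => ?_
    split_ifs <;> simp
  map_smul' c f := by
    funext k w
    simp only [Pi.smul_apply, smul_eq_mul, RingHom.id_apply]
    rw [mul_sum]
    refine sum_congr rfl fun v _ => ?_
    split_ifs <;> simp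

theorem Q_of_ker {N : List ℕ} {f : (Fin q → Fin m) → ℝ} (hf : f ∈ LinearMap.ker (marg q m N))
    {s : ℕ} (hs : s ∈ N) : Q s f = 0 := by
  obtain ⟨k, rfl⟩ := List.get_of_mem hs
  unfold Q
  refine sum_eq_zero fun w _ => ?_
  have h1 : marg q m N f = 0 := hf
  have h2 : (∑ v, if res (N.get k) v = w then f v else 0) = 0 := congrFun (congrFun h1 k) w
  rw [h2]
  norm_num

open scoped Classical in
theorem form {P N : List ℕ} (h : Pattern q P N) (f : (Fin q → Fin m) → ℝ) :
    ∑ u, f u * ((graph h m).adjMatrix ℝ).mulVec f u =
      (P.map fun s => Q s f).sum - (N.map fun s => Q s f).sum := by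
  rw [← sum_cnt h.ltP, ← sum_cnt h.ltN, ← sum_sub_distrib]
  refine sum_congr rfl fun u _ => ?_
  rw [← sum_sub_distrib, Matrix.mulVec, dotProduct, mul_sum]
  refine sum_congr rfl fun v _ => ?_
  rw [SimpleGraph.adjMatrix_apply]
  have h1 := h.bool (agree u v) (agree_lt u v)
  by_cases h2 : cnt P (agree u v) = cnt N (agree u v) + 1
  · rw [if_pos (show (graph h m).Adj u v from h2), h2]
    push_cast
    ring
  · rw [if_neg (show ¬ (graph h m).Adj u v from h2), h1.resolve_right h2]
    ring

theorem list_sum_ge {L : List ℕ} (f : ℕ → ℝ) (hf : ∀ s, 0 ≤ f s) {t : ℕ} (ht : t ∈ L) :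
    f t ≤ (L.map f).sum := by
  induction L with
  | nil => exact absurd ht List.not_mem_nil
  | cons s L ih =>
    rw [List.map_cons, List.sum_cons]
    have h2 : 0 ≤ (L.map f).sum := List.sum_nonneg (by
      intro x hx
      obtain ⟨y, _, rfl⟩ := List.mem_map.1 hx
      exact hf y)
    rcases List.mem_cons.1 ht with rfl | ht
    · linarith
    · have := ih ht
      have := hf s
      linarith

theorem finrank_ker (q m : ℕ) (N : List ℕ) (j : ℕ) (hm : 1 ≤ m)
    (hN : ∀ s ∈ N, Fintype.card (Pos q s) ≤ j) :
    m ^ q ≤ Module.finrank ℝ (LinearMap.ker (marg q m N)) + N.length * m ^ j := by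
  classical
  have h1 := LinearMap.finrank_range_add_finrank_ker (marg q m N)
  have h2 : Module.finrank ℝ (LinearMap.range (marg q m N)) ≤ N.length * m ^ j := by
    refine (Submodule.finrank_le _).trans ?_
    rw [Module.finrank_pi_fintype]
    calc ∑ k : Fin N.length, Module.finrank ℝ ((Pos q (N.get k) → Fin m) → ℝ)
        ≤ ∑ _k : Fin N.length, m ^ j := by
          refine sum_le_sum fun k _ => ?_
          rw [Module.finrank_fintype_fun_eq_card, Fintype.card_fun, Fintype.card_fin]
          exact Nat.pow_le_pow_right hm (hN _ (List.get_mem N k))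
      _ = N.length * m ^ j := by simp
  rw [Module.finrank_fintype_fun_eq_card, Fintype.card_fun, Fintype.card_fin,
    Fintype.card_fin] at h1
  omega

/-- The inertia of the graph of an agreement pattern. -/
theorem inertia {P N : List ℕ} (h : Pattern q P N) (m j : ℕ) (hm : 1 ≤ m)
    (hN : ∀ s ∈ N, Fintype.card (Pos q s) ≤ j) :
    nMinus (graph h m) ≤ N.length * m ^ j ∧ m ^ q ≤ nPlus (graph h m) + N.length * m ^ j := by
  classical
  have hb := bounds (graph h m) (LinearMap.ker (marg q m N)) (by
    intro f hf
    have h1 : (N.map fun s => Q s f).sum = 0 := by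
      apply List.sum_eq_zero
      intro x hx
      obtain ⟨s, hs, rfl⟩ := List.mem_map.1 hx
      exact Q_of_ker hf hs
    have h2 := list_sum_ge (fun s => Q s f) (fun s => Q_nonneg s f) h.top
    have h3 := form (m := m) h f
    rw [h1, sub_zero] at h3
    rw [← Q_top]
    calc Q (2 ^ q - 1) f ≤ (P.map fun s => Q s f).sum := h2
      _ = _ := h3.symm)
  have h3 := finrank_ker q m N j hm hN
  rw [Fintype.card_fun, Fintype.card_fin, Fintype.card_fin] at hb
  obtain ⟨h4, h5⟩ := hb
  constructor
  · omega
  · omega

end Pool.Agent.Q125.IN
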