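import Pool.Agent.Q125.IN.Gen

/-!
# A pattern of ten positions whose negative sets have at most four elements
-/

set_option autoImplicit false

namespace Pool.Agent.Q125.IN

/-- the positive sets -/
def P10 : List ℕ := [0, 7, 11, 67, 76, 84, 88, 100, 104, 112, 124, 131, 140, 148, 152, 164, 168,
  176, 188, 196, 200, 208, 220, 224, 236, 259, 268, 272, 288, 316, 324, 328, 388, 392, 451, 460,
  592, 608, 656, 672, 707, 771, 816, 1023]

/-- the negative sets -/
def N10 : List ℕ := [3, 15, 68, 72, 80, 92, 96, 108, 116, 120, 132, 136, 144, 156, 160, 172, 180,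
  184, 195, 204, 212, 216, 228, 232, 256, 263, 267, 284, 300, 304, 323, 332, 387, 396, 452, 456,
  579, 624, 643, 688, 720, 736, 784, 800]

theorem pattern10 : Pattern 10 P10 N10 where
  ltP := by decide +kernel
  ltN := by decide +kernel
  top := by decide +kernel
  bool := by decide +kernel
  diag := by decide +kernel

theorem card10 : ∀ s ∈ N10, Fintype.card (Pos 10 s) ≤ 4 := by decide +kernel

end Pool.Agent.Q125.IN
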